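import Pool.Agent.Y793.Dy.Stm2
import Pool.Agent.Y975.Dy.Pair

/-!
# Infinitely many windows, the numbers `t` and `t + 1`: the doubling step in the other sequence
(job DY-PAIR2 of helper793, by helper409, adapted from `Pool/Agent/Y975/Dy/Pair.lean`)
-/

set_option autoImplicit false

namespace Pool.Agent.Y409.Dy

open Finset Pool.Agent.Y793.Dy Pool.Agent.Helper352.Bed Pool.Agent.Y975.Dy

theorem t_PAIR2 : S_PAIR2 := by
  intro p q u Y θ hp hpq hu hY hYu hθ hne X G hG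
  have hθ0 : 0 < θ := by linarith
  have hp0 : (0 : ℝ) < p := by exact_mod_cast (by omega : 0 < p)
  set B := (range u).filter (fun i => Y.testBit i = true) with hB
  set c := cc (p * θ) (q * θ) with hc
  have hfreq : ∀ N, ∃ j, N ≤ j ∧ ∃ e ≤ u,
      (c (2 * (j + u + 1)) = 2 * c (2 * (j + u)) + 1 ∧
        c (2 * (j + u)) = c (2 * j) + ∑ i ∈ B, c (2 * (j + i) + 1) + e) := by
    intro N
    obtain ⟨j, hj, hgood⟩ := frequently_good (p * θ) (by positivity) hne (u + 1) (by omega) N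
    obtain ⟨e, he, hw⟩ := window p q u Y j θ hθ0 hY hYu
    refine ⟨j, hj, e, he, ?_, hw⟩
    rw [hc, cc_even, cc_even]
    rw [show j + (u + 1) - 1 = j + u by omega, show j + (u + 1) = j + u + 1 by omega] at hgood
    exact hgood
  obtain ⟨e, he, hee⟩ : ∃ e ≤ u, ∀ N, ∃ j, N ≤ j ∧
      (c (2 * (j + u + 1)) = 2 * c (2 * (j + u)) + 1 ∧
        c (2 * (j + u)) = c (2 * j) + ∑ i ∈ B, c (2 * (j + i) + 1) + e) := by
    by_contra hcon
    push Not at hcon
    choose! N hN using hcon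
    obtain ⟨j, hj, e, he, h1, h2⟩ := hfreq ((range (u + 1)).sup N)
    have h3 : N e ≤ j := (Finset.le_sup (f := N) (mem_range.2 (by omega))).trans hj
    exact hN e he j h3 h1 h2
  obtain ⟨j₁, hj₁, hg1, hw1⟩ := hee X
  obtain ⟨j₂, hj₂, hg2, hw2⟩ := hee (j₁ + G)
  have hBmem : ∀ i ∈ B, i < u ∧ Y.testBit i = true := by
    intro i hi
    rw [hB, mem_filter, mem_range] at hi
    exact hi
  have hdis : ∀ i, Rsv Y u j₁ i → ¬ (Rsv Y u j₂ i ∨ i = 2 * (j₂ + u + 1)) := by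
    intro i h1 h2
    have h3 : i ≤ 2 * (j₁ + u) + 1 := by
      rcases h1 with h | ⟨k, hk, -, h⟩ | h | h <;> omega
    have h4 : 2 * j₂ ≤ i := by
      rcases h2 with (h | ⟨k, hk, -, h⟩ | h | h) | h <;> omega
    omega
  refine ⟨j₁, j₂, c (2 * (j₁ + u)) + (c (2 * (j₂ + u)) +
    (c (2 * j₂) + ∑ i ∈ B, c (2 * (j₂ + i) + 1))), hj₁, hj₂, ?_, ?_⟩
  · apply SS.add hdis
    · refine ⟨{2 * (j₁ + u)}, ?_, by rw [sum_singleton]⟩
      intro i hi
      rw [mem_singleton] at hi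
      rw [hi]
      exact Or.inr (Or.inr (Or.inl rfl))
    · have h1 : SS c (fun i => i = 2 * (j₂ + u)) (c (2 * (j₂ + u))) :=
        ⟨{2 * (j₂ + u)}, fun i hi => mem_singleton.1 hi, by rw [sum_singleton]⟩
      have h2 : SS c (fun i => i = 2 * j₂ ∨ ∃ k ∈ B, i = 2 * (j₂ + k) + 1)
          (c (2 * j₂) + ∑ i ∈ B, c (2 * (j₂ + i) + 1)) :=
        ss_row c _ j₂ B (Or.inl rfl) fun i hi => Or.inr ⟨i, hi, rfl⟩
      have h3 := SS.add (fun i (hi : i = 2 * (j₂ + u)) => by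
        rintro (h | ⟨k, -, h⟩) <;> omega) h1 h2
      refine SS.mono (fun i hi => ?_) h3
      rcases hi with hi | hi | ⟨k, hk, hi⟩
      · exact Or.inl (Or.inr (Or.inr (Or.inl hi)))
      · exact Or.inl (Or.inl hi)
      · exact Or.inl (Or.inr (Or.inl ⟨k, (hBmem k hk).1, (hBmem k hk).2, hi⟩))
  · have h5 : c (2 * (j₁ + u)) + (c (2 * (j₂ + u)) +
        (c (2 * j₂) + ∑ i ∈ B, c (2 * (j₂ + i) + 1))) + 1 =
        (c (2 * j₁) + ∑ i ∈ B, c (2 * (j₁ + i) + 1)) + c (2 * (j₂ + u + 1)) := by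
      omega
    rw [h5]
    apply SS.add hdis
    · exact ss_row c _ j₁ B (Or.inl rfl) fun i hi =>
        Or.inr (Or.inl ⟨i, (hBmem i hi).1, (hBmem i hi).2, rfl⟩)
    · refine ⟨{2 * (j₂ + u + 1)}, ?_, by rw [sum_singleton]⟩
      intro i hi
      rw [mem_singleton] at hi
      exact Or.inr hi

end Pool.Agent.Y409.Dy
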